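import Pool.Agent.H10.EH.FC

/-!
# Bounds for `F_ll F_g` of `F_A`, `F_B` near the point `(rho, g) = (p, 0)`

Only algebra: with `X = cosh F`, `T = sinh F`, `Y = R + rho - p C`, `Z = R - rho + p C`,
`Y Z = p (1 - p) S^2`.
-/

namespace Pool.Agent.H61.EH

open Real Pool.EH

/-! ### `R` -/

lemma Y_pos {p : ℝ} (hp : 0 < p) (hp1 : p < 1) (l : ℝ) {g : ℝ} (hg : 0 < g) :
    0 < RR p l g + rh l - p * Real.cosh g := by
  have hR := RR_pos hp hp1 l hg
  have hs := RR_sq hp hp1 l g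
  have hS : 0 < Real.sinh g := Real.sinh_pos_iff.2 hg
  have hq : 0 < 1 - p := by linarith
  have h1 : (rh l - p * Real.cosh g) ^ 2 < RR p l g ^ 2 := by
    rw [hs]; have : 0 < p * (1 - p) * Real.sinh g ^ 2 := by positivity
    linarith
  have h2 := abs_lt_of_sq_lt_sq h1 hR.le
  have := (abs_lt.1 h2).1
  linarith

lemma Z_pos {p : ℝ} (hp : 0 < p) (hp1 : p < 1) (l : ℝ) {g : ℝ} (hg : 0 < g) :
    0 < RR p l g - rh l + p * Real.cosh g := by
  have hR := RR_pos hp hp1 l hg
  have hs := RR_sq hp hp1 l g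
  have hS : 0 < Real.sinh g := Real.sinh_pos_iff.2 hg
  have hq : 0 < 1 - p := by linarith
  have h1 : (rh l - p * Real.cosh g) ^ 2 < RR p l g ^ 2 := by
    rw [hs]; have : 0 < p * (1 - p) * Real.sinh g ^ 2 := by positivity
    linarith
  have h2 := abs_lt_of_sq_lt_sq h1 hR.le
  have := (abs_lt.1 h2).2
  linarith

lemma YZ {p : ℝ} (hp : 0 < p) (hp1 : p < 1) (l g : ℝ) :
    (RR p l g + rh l - p * Real.cosh g) * (RR p l g - rh l + p * Real.cosh g)
      = p * (1 - p) * Real.sinh g ^ 2 := by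
  have hs := RR_sq hp hp1 l g
  linear_combination hs

/-- `sqrt (p (1-p)) S ≤ R` in squared form -/
lemma S_le_R {p : ℝ} (hp : 0 < p) (hp1 : p < 1) (l g : ℝ) :
    p * (1 - p) * Real.sinh g ^ 2 ≤ RR p l g ^ 2 := by
  rw [RR_sq hp hp1]; nlinarith [sq_nonneg (rh l - p * Real.cosh g)]

lemma sinh_le_RR {p : ℝ} (hp : 0 < p) (hp1 : p < 1) (l : ℝ) {g : ℝ} (hg : 0 < g) :
    p * (1 - p) * Real.sinh g ≤ RR p l g := by
  have hR := RR_pos hp hp1 l hg
  have hS : 0 < Real.sinh g := Real.sinh_pos_iff.2 hg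
  have hq : 0 < 1 - p := by linarith
  have h1 := S_le_R hp hp1 l g
  have h2 : (p * (1 - p) * Real.sinh g) ^ 2 ≤ RR p l g ^ 2 := by
    refine le_trans ?_ h1
    have : p * (1 - p) ≤ 1 := by nlinarith
    have h3 : (p * (1 - p) * Real.sinh g) ^ 2
        = (p * (1 - p)) * (p * (1 - p) * Real.sinh g ^ 2) := by ring
    rw [h3]
    have h4 : 0 ≤ p * (1 - p) * Real.sinh g ^ 2 := by positivity
    nlinarith
  exact le_of_sq_le_sq h2 hR.le

lemma abs_le_RR {p : ℝ} (hp : 0 < p) (hp1 : p < 1) (l : ℝ) {g : ℝ} (hg : 0 < g) :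
    |rh l - p * Real.cosh g| ≤ RR p l g := by
  have h1 := Y_pos hp hp1 l hg
  have h2 := Z_pos hp hp1 l hg
  rw [abs_le]; constructor <;> linarith

/-- `|rho - p| + g ≤ (4 / (p (1-p))) R` -/
lemma dist_le_RR {p : ℝ} (hp : 0 < p) (hp1 : p < 1) (l : ℝ) {g : ℝ} (hg : 0 < g) :
    |rh l - p| + g ≤ 4 / (p * (1 - p)) * RR p l g := by
  have hR := RR_pos hp hp1 l hg
  have hS : 0 < Real.sinh g := Real.sinh_pos_iff.2 hg
  have hq : 0 < 1 - p := by linarith
  have hpq : 0 < p * (1 - p) := by positivity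
  have hpq1 : p * (1 - p) ≤ 1 := by nlinarith
  have h1 := abs_le_RR hp hp1 l hg
  have h2 := sinh_le_RR hp hp1 l hg
  have h3 : g ≤ Real.sinh g := Real.self_le_sinh_iff.2 hg.le
  have h4 : Real.cosh g - 1 ≤ Real.sinh g := by
    have := Real.cosh_sub_sinh g
    have h5 : Real.exp (-g) ≤ 1 := Real.exp_le_one_iff.2 (by linarith)
    linarith
  have h5 : 0 ≤ Real.cosh g - 1 := by linarith [Real.one_le_cosh g]
  have h6 : |rh l - p| ≤ |rh l - p * Real.cosh g| + p * (Real.cosh g - 1) := by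
    have : rh l - p = (rh l - p * Real.cosh g) + p * (Real.cosh g - 1) := by ring
    rw [this]
    refine (abs_add_le _ _).trans ?_
    rw [abs_of_nonneg (by positivity : 0 ≤ p * (Real.cosh g - 1))]
  have h7 : Real.sinh g ≤ RR p l g / (p * (1 - p)) := by
    rw [le_div_iff₀ hpq]; linarith
  have h8 : RR p l g ≤ RR p l g / (p * (1 - p)) := by
    rw [le_div_iff₀ hpq]; nlinarith
  have h9 : p * (Real.cosh g - 1) ≤ Real.sinh g := by nlinarith
  have h10 : 4 / (p * (1 - p)) * RR p l g = 4 * (RR p l g / (p * (1 - p))) := by ring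
  rw [h10]
  linarith

/-! ### `F_A` -/

lemma pXC_A {p : ℝ} (hp : 0 < p) (hp1 : p < 1) (l : ℝ) {g : ℝ} (hg : 0 < g) :
    p * (Real.cosh (FA p l g) - Real.cosh g) = RR p l g + rh l - p * Real.cosh g := by
  have := RR_eq_A hp hp1 l hg
  linarith

lemma XC_pos_A {p : ℝ} (hp : 0 < p) (hp1 : p < 1) (l : ℝ) {g : ℝ} (hg : 0 < g) :
    0 < Real.cosh (FA p l g) - Real.cosh g := by
  have h1 := pXC_A hp hp1 l hg
  have h2 := Y_pos hp hp1 l hg
  rw [← h1] at h2
  exact (mul_pos_iff_of_pos_left hp).1 h2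

lemma A_two_rho {p : ℝ} (hp : 0 < p) (hp1 : p < 1) (l : ℝ) {g : ℝ} (hg : 0 < g) :
    2 * rh l * (Real.cosh (FA p l g) - Real.cosh g) ≤ p * Real.sinh (FA p l g) ^ 2 := by
  have := rel_A hp hp1 l hg
  nlinarith [sq_nonneg (Real.sinh g)]

lemma S_le_T_A {p : ℝ} (hp : 0 < p) (hp1 : p < 1) (l : ℝ) {g : ℝ} (hg : 0 < g) :
    Real.sinh g ^ 2 ≤ p * Real.sinh (FA p l g) ^ 2 := by
  have := rel_A hp hp1 l hg
  have h1 := XC_pos_A hp hp1 l hg
  have h2 := rh_pos l
  have : 0 ≤ 2 * rh l * (Real.cosh (FA p l g) - Real.cosh g) := by positivity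
  linarith

lemma XC_le_A {p : ℝ} (hp : 0 < p) (hp1 : p < 1) (l : ℝ) {g : ℝ} (hg : 0 < g) :
    Real.cosh (FA p l g) - Real.cosh g ≤ 2 * Real.sinh (FA p l g) ^ 2 := by
  have hXC := XC_pos_A hp hp1 l hg
  have hr := rh_pos l
  have hT : 0 ≤ Real.sinh (FA p l g) ^ 2 := sq_nonneg _
  by_cases h : p / 2 ≤ rh l
  · have h1 := A_two_rho hp hp1 l hg
    have h2 : p * (Real.cosh (FA p l g) - Real.cosh g)
        ≤ 2 * rh l * (Real.cosh (FA p l g) - Real.cosh g) := by
      apply mul_le_mul_of_nonneg_right _ hXC.le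
      linarith
    have h3 : p * (Real.cosh (FA p l g) - Real.cosh g) ≤ p * Real.sinh (FA p l g) ^ 2 :=
      h2.trans h1
    have h4 := le_of_mul_le_mul_left h3 hp
    linarith
  · push Not at h
    have hR := RR_pos hp hp1 l hg
    have hC := Real.one_le_cosh g
    have hZ : p / 2 ≤ RR p l g - rh l + p * Real.cosh g := by nlinarith
    have h1 := YZ hp hp1 l g
    rw [← pXC_A hp hp1 l hg] at h1
    have h2 := S_le_T_A hp hp1 l hg
    have hq : 0 < 1 - p := by linarith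
    have h3 : p * (Real.cosh (FA p l g) - Real.cosh g) * (p / 2)
        ≤ p * (1 - p) * Real.sinh g ^ 2 := by
      rw [← h1]
      apply mul_le_mul_of_nonneg_left hZ
      positivity
    have h4 : p * (1 - p) * Real.sinh g ^ 2 ≤ p * 1 * (p * Real.sinh (FA p l g) ^ 2) := by
      apply mul_le_mul _ h2 (sq_nonneg _) (by positivity)
      apply mul_le_mul_of_nonneg_left _ hp.le
      linarith
    have h5 : (p ^ 2 / 2) * (Real.cosh (FA p l g) - Real.cosh g)
        ≤ (p ^ 2 / 2) * (2 * Real.sinh (FA p l g) ^ 2) := by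
      calc (p ^ 2 / 2) * (Real.cosh (FA p l g) - Real.cosh g)
          = p * (Real.cosh (FA p l g) - Real.cosh g) * (p / 2) := by ring
        _ ≤ _ := h3.trans h4
        _ = _ := by ring
    exact le_of_mul_le_mul_left h5 (by positivity)

lemma FAl_pos {p : ℝ} (hp : 0 < p) (hp1 : p < 1) (l : ℝ) {g : ℝ} (hg : 0 < g) :
    0 < FAl p l g := by
  unfold FAl
  have := rh_pos l
  have := XC_pos_A hp hp1 l hg
  have := RR_pos hp hp1 l hg
  have := sinh_FA_pos hp hp1 l hg
  positivity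

/-- `|F_ll| ≤ F_l (1 + 2 rho / R)` for `F_A` -/
theorem abs_FAll_le {p : ℝ} (hp : 0 < p) (hp1 : p < 1) (l : ℝ) {g : ℝ} (hg : 0 < g) :
    |FAll p l g| ≤ FAl p l g * (2 + 4 * rh l / RR p l g) := by
  have hr := rh_pos l
  have hXC := XC_pos_A hp hp1 l hg
  have hR := RR_pos hp hp1 l hg
  have hT := sinh_FA_pos hp hp1 l hg
  have hl := FAl_pos hp hp1 l hg
  set X := Real.cosh (FA p l g) with hX
  set T := Real.sinh (FA p l g) with hTd
  set C := Real.cosh g with hC
  set R := RR p l g with hRd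
  have hD : DA p l g = R * T := rfl
  have hE : EA p l g = p * T ^ 2 + R * X := rfl
  have hFl : FAl p l g = rh l * (X - C) / (R * T) := rfl
  have h1 : FAll p l g = FAl p l g * (1 + 2 * rh l / R - EA p l g * FAl p l g / (R * T)) := by
    unfold FAll
    rw [hD, ← hX, ← hTd, ← hC]
    have e : rh l * (X - C) = FAl p l g * (R * T) := by
      rw [hFl]; field_simp
    rw [e]
    field_simp
  have hXpos : 0 < X := by rw [hX]; exact Real.cosh_pos _
  have h2 : EA p l g * FAl p l g / (R * T)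
      = p * (X - C) * rh l / R ^ 2 + rh l * (X * (X - C) / T ^ 2) / R := by
    rw [hE, hFl]; field_simp
  have h3 : 0 ≤ EA p l g * FAl p l g / (R * T) := by
    rw [h2]; positivity
  have h4 : p * (X - C) ≤ 2 * R := by
    have e1 := pXC_A hp hp1 l hg
    have e2 := Z_pos hp hp1 l hg
    rw [← hX, ← hC, ← hRd] at e1
    rw [← hC, ← hRd] at e2
    linarith
  have h5 : p * (X - C) * rh l / R ^ 2 ≤ 2 * rh l / R := by
    rw [div_le_div_iff₀ (by positivity) hR]
    nlinarith [mul_pos hr hR, mul_pos (mul_pos hr hR) hR]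
  have h6 : rh l * (X * (X - C) / T ^ 2) ≤ (rh l + R) / 2 := by
    have e1 := A_two_rho hp hp1 l hg
    rw [← hX, ← hC, ← hTd] at e1
    have e2 : rh l + R = p * X := by
      have := RR_eq_A hp hp1 l hg
      rw [← hX, ← hRd] at this
      linarith
    rw [e2, ← mul_div_assoc, div_le_div_iff₀ (by positivity) (by norm_num)]
    nlinarith
  have h7 : rh l * (X * (X - C) / T ^ 2) / R ≤ 1 / 2 + rh l / R := by
    have : rh l * (X * (X - C) / T ^ 2) / R ≤ ((rh l + R) / 2) / R :=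
      div_le_div_of_nonneg_right h6 hR.le
    refine this.trans ?_
    have e : ((rh l + R) / 2) / R = 1 / 2 + (rh l / R) / 2 := by field_simp; ring
    rw [e]
    have : 0 < rh l / R := by positivity
    linarith
  have h8 : EA p l g * FAl p l g / (R * T) ≤ 1 / 2 + 3 * (rh l / R) := by
    rw [h2]
    have : 2 * rh l / R = 2 * (rh l / R) := by ring
    linarith
  rw [h1, abs_mul, abs_of_pos hl]
  apply mul_le_mul_of_nonneg_left _ hl.le
  have h9 : 0 < rh l / R := by positivity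
  have e1 : 2 * rh l / R = 2 * (rh l / R) := by ring
  have e2 : 4 * rh l / R = 4 * (rh l / R) := by ring
  rw [abs_le, e1, e2]
  constructor <;> linarith

theorem abs_FAlg_le {p : ℝ} (hp : 0 < p) (hp1 : p < 1) (l : ℝ) {g : ℝ} (hg : 0 < g) :
    |FAl p l g * FAg p l g| ≤ 2 * rh l * Real.sinh g * |Real.cosh g - rh l| / RR p l g ^ 2 := by
  have hr := rh_pos l
  have hXC := XC_pos_A hp hp1 l hg
  have hR := RR_pos hp hp1 l hg
  have hT := sinh_FA_pos hp hp1 l hg
  have hS : 0 < Real.sinh g := Real.sinh_pos_iff.2 hg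
  have h1 : FAl p l g * FAg p l g = ((Real.cosh (FA p l g) - Real.cosh g)
      / Real.sinh (FA p l g) ^ 2) * (rh l * Real.sinh g * (Real.cosh g - rh l) / RR p l g ^ 2) := by
    unfold FAl FAg; field_simp
  have h2 : (Real.cosh (FA p l g) - Real.cosh g) / Real.sinh (FA p l g) ^ 2 ≤ 2 := by
    rw [div_le_iff₀ (by positivity)]
    exact XC_le_A hp hp1 l hg
  have h3 : |rh l * Real.sinh g * (Real.cosh g - rh l) / RR p l g ^ 2|
      = rh l * Real.sinh g * |Real.cosh g - rh l| / RR p l g ^ 2 := by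
    rw [abs_div, abs_mul, abs_of_pos (by positivity : 0 < rh l * Real.sinh g),
      abs_of_pos (by positivity : 0 < RR p l g ^ 2)]
  rw [h1, abs_mul, h3, abs_of_pos (by positivity)]
  have h4 : 0 ≤ rh l * Real.sinh g * |Real.cosh g - rh l| / RR p l g ^ 2 := by positivity
  calc _ ≤ 2 * (rh l * Real.sinh g * |Real.cosh g - rh l| / RR p l g ^ 2) :=
        mul_le_mul_of_nonneg_right h2 h4
    _ = _ := by ring

/-- main bound for `F_A`, no restriction on `l`, `g > 0` -/
theorem bd_A {p : ℝ} (hp : 0 < p) (hp1 : p < 1) (l : ℝ) {g : ℝ} (hg : 0 < g) :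
    |FAll p l g * FAg p l g|
      ≤ 2 * rh l * Real.sinh g * |Real.cosh g - rh l| / RR p l g ^ 2 * (2 + 4 * rh l / RR p l g) := by
  have hr := rh_pos l
  have hR := RR_pos hp hp1 l hg
  have hl := FAl_pos hp hp1 l hg
  have h1 := abs_FAll_le hp hp1 l hg
  have h2 := abs_FAlg_le hp hp1 l hg
  have h3 : 0 < 2 + 4 * rh l / RR p l g := by positivity
  calc |FAll p l g * FAg p l g| = |FAll p l g| * |FAg p l g| := abs_mul _ _
    _ ≤ FAl p l g * (2 + 4 * rh l / RR p l g) * |FAg p l g| :=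
        mul_le_mul_of_nonneg_right h1 (abs_nonneg _)
    _ = |FAl p l g * FAg p l g| * (2 + 4 * rh l / RR p l g) := by
        rw [abs_mul, abs_of_pos hl]; ring
    _ ≤ _ := mul_le_mul_of_nonneg_right h2 h3.le

/-! ### `F_B` -/

lemma pXC_B {p : ℝ} (hp : 0 < p) (hp1 : p < 1) (l : ℝ) {g : ℝ} (hg : 0 < g) :
    (1 - p) * (Real.cosh (FB p l g) - Real.cosh g) = RR p l g - rh l + p * Real.cosh g := by
  have := RR_eq_B hp hp1 l hg
  linarith

lemma XC_pos_B {p : ℝ} (hp : 0 < p) (hp1 : p < 1) (l : ℝ) {g : ℝ} (hg : 0 < g) :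
    0 < Real.cosh (FB p l g) - Real.cosh g := by
  have h1 := pXC_B hp hp1 l hg
  have h2 := Z_pos hp hp1 l hg
  rw [← h1] at h2
  exact (mul_pos_iff_of_pos_left (by linarith : 0 < 1 - p)).1 h2

lemma q2T2_B {p : ℝ} (hp : 0 < p) (hp1 : p < 1) (l : ℝ) {g : ℝ} (hg : 0 < g) :
    p * ((1 - p) ^ 2 * Real.sinh (FB p l g) ^ 2)
      = (RR p l g - rh l + p * Real.cosh g)
        * (RR p l g + p * (Real.cosh g - rh l) + (1 - p) * rh l) := by
  have h1 := rel_B hp hp1 l hg
  have h2 := YZ hp hp1 l g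
  have h3 := pXC_B hp hp1 l hg
  linear_combination (p * (1 - p)) * h1 - h2 + 2 * p * (Real.cosh g - rh l) * h3

/-- `(X - C)(X - C + rho) ≤ p T^2` -/
lemma B_i {p : ℝ} (hp : 0 < p) (hp1 : p < 1) (l : ℝ) {g : ℝ} (hg : 0 < g) :
    (Real.cosh (FB p l g) - Real.cosh g) * (Real.cosh (FB p l g) - Real.cosh g + rh l)
      ≤ p * Real.sinh (FB p l g) ^ 2 := by
  have h1 := q2T2_B hp hp1 l hg
  have h3 := pXC_B hp hp1 l hg
  have hZ := Z_pos hp hp1 l hg
  have hr := rh_pos l
  have hq : 0 < 1 - p := by linarith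
  have h4 : (1 - p) ^ 2 * ((Real.cosh (FB p l g) - Real.cosh g)
      * (Real.cosh (FB p l g) - Real.cosh g + rh l))
      ≤ (1 - p) ^ 2 * (p * Real.sinh (FB p l g) ^ 2) := by
    calc (1 - p) ^ 2 * ((Real.cosh (FB p l g) - Real.cosh g)
          * (Real.cosh (FB p l g) - Real.cosh g + rh l))
        = ((1 - p) * (Real.cosh (FB p l g) - Real.cosh g))
          * ((1 - p) * (Real.cosh (FB p l g) - Real.cosh g) + (1 - p) * rh l) := by ring
      _ = (RR p l g - rh l + p * Real.cosh g)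
          * (RR p l g - rh l + p * Real.cosh g + (1 - p) * rh l) := by rw [h3]
      _ ≤ (RR p l g - rh l + p * Real.cosh g)
        * (RR p l g + p * (Real.cosh g - rh l) + (1 - p) * rh l) := by
          apply mul_le_mul_of_nonneg_left _ hZ.le
          nlinarith
      _ = _ := by rw [← h1]; ring
  exact le_of_mul_le_mul_left h4 (by positivity)

/-- `X (X - C) ≤ T^2` if `rho ≤ C` -/
lemma B_ii {p : ℝ} (hp : 0 < p) (hp1 : p < 1) (l : ℝ) {g : ℝ} (hg : 0 < g)
    (hrC : rh l ≤ Real.cosh g) :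
    Real.cosh (FB p l g) * (Real.cosh (FB p l g) - Real.cosh g)
      ≤ Real.sinh (FB p l g) ^ 2 := by
  have h1 := q2T2_B hp hp1 l hg
  have h3 := pXC_B hp hp1 l hg
  have hZ := Z_pos hp hp1 l hg
  have hR := RR_pos hp hp1 l hg
  have hr := rh_pos l
  have hq : 0 < 1 - p := by linarith
  have h5 := RR_eq_B hp hp1 l hg
  have h4 : (p * (1 - p) ^ 2) * (Real.cosh (FB p l g) * (Real.cosh (FB p l g) - Real.cosh g))
      ≤ (p * (1 - p) ^ 2) * Real.sinh (FB p l g) ^ 2 := by
    calc (p * (1 - p) ^ 2) * (Real.cosh (FB p l g) * (Real.cosh (FB p l g) - Real.cosh g))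
        = (p * ((1 - p) * Real.cosh (FB p l g)))
          * ((1 - p) * (Real.cosh (FB p l g) - Real.cosh g)) := by ring
      _ = (p * (RR p l g + (Real.cosh g - rh l))) * (RR p l g - rh l + p * Real.cosh g) := by
          rw [h3]; congr 2; linarith
      _ ≤ (RR p l g + p * (Real.cosh g - rh l) + (1 - p) * rh l)
          * (RR p l g - rh l + p * Real.cosh g) := by
          apply mul_le_mul_of_nonneg_right _ hZ.le
          nlinarith
      _ = _ := by linear_combination (-1 : ℝ) * h1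
  exact le_of_mul_le_mul_left h4 (by positivity)

lemma FBl_neg {p : ℝ} (hp : 0 < p) (hp1 : p < 1) (l : ℝ) {g : ℝ} (hg : 0 < g) :
    FBl p l g < 0 := by
  unfold FBl
  have h1 := rh_pos l
  have h2 := XC_pos_B hp hp1 l hg
  have h3 := RR_pos hp hp1 l hg
  have h4 := sinh_FB_pos hp hp1 l hg
  apply div_neg_of_neg_of_pos
  · have := mul_pos h1 h2; linarith
  · positivity

/-- `|F_ll| ≤ |F_l| (1 + 2 rho / R)` for `F_B`, `rho ≤ C` -/
theorem abs_FBll_le {p : ℝ} (hp : 0 < p) (hp1 : p < 1) (l : ℝ) {g : ℝ} (hg : 0 < g)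
    (hrC : rh l ≤ Real.cosh g) :
    |FBll p l g| ≤ |FBl p l g| * (2 + 4 * rh l / RR p l g) := by
  have hr := rh_pos l
  have hXC := XC_pos_B hp hp1 l hg
  have hR := RR_pos hp hp1 l hg
  have hT := sinh_FB_pos hp hp1 l hg
  have hl := FBl_neg hp hp1 l hg
  have hii := B_ii hp hp1 l hg hrC
  have hq : 0 < 1 - p := by linarith
  have e1 := pXC_B hp hp1 l hg
  have e2 := Y_pos hp hp1 l hg
  set X := Real.cosh (FB p l g) with hX
  set T := Real.sinh (FB p l g) with hTd
  set C := Real.cosh g with hC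
  set R := RR p l g with hRd
  have hD : DB p l g = R * T := rfl
  have hE : EB p l g = (1 - p) * T ^ 2 + R * X := rfl
  have hFl : FBl p l g = - (rh l * (X - C)) / (R * T) := rfl
  have h1 : FBll p l g = FBl p l g * (1 - 2 * rh l / R - EB p l g * FBl p l g / (R * T)) := by
    unfold FBll
    rw [hD, ← hX, ← hTd, ← hC]
    have e : -(rh l * (X - C)) = FBl p l g * (R * T) := by
      rw [hFl]; field_simp
    rw [e]
    field_simp
  have hXpos : 0 < X := by rw [hX]; exact Real.cosh_pos _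
  have h2 : - (EB p l g * FBl p l g / (R * T))
      = (1 - p) * (X - C) * rh l / R ^ 2 + rh l * (X * (X - C) / T ^ 2) / R := by
    rw [hE, hFl]; field_simp
  have h3 : 0 ≤ - (EB p l g * FBl p l g / (R * T)) := by
    rw [h2]; positivity
  have h4 : (1 - p) * (X - C) ≤ 2 * R := by linarith
  have h5 : (1 - p) * (X - C) * rh l / R ^ 2 ≤ 2 * rh l / R := by
    rw [div_le_div_iff₀ (by positivity) hR]
    nlinarith [mul_pos hr hR, mul_pos (mul_pos hr hR) hR]
  have h6 : X * (X - C) / T ^ 2 ≤ 1 := by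
    rw [div_le_one (by positivity)]; exact hii
  have h7 : rh l * (X * (X - C) / T ^ 2) / R ≤ rh l / R := by
    apply div_le_div_of_nonneg_right _ hR.le
    nlinarith
  rw [h1, abs_mul]
  apply mul_le_mul_of_nonneg_left _ (abs_nonneg _)
  have h9 : 0 < rh l / R := by positivity
  have e3 : 2 * rh l / R = 2 * (rh l / R) := by ring
  have e4 : 4 * rh l / R = 4 * (rh l / R) := by ring
  rw [e3] at h5
  rw [abs_le, e3, e4]
  constructor <;> linarith

theorem abs_FBlg_le {p : ℝ} (hp : 0 < p) (hp1 : p < 1) (l : ℝ) {g : ℝ} (hg : 0 < g) :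
    |FBl p l g * FBg p l g| ≤ rh l * Real.sinh g / RR p l g ^ 2 := by
  have hr := rh_pos l
  have hXC := XC_pos_B hp hp1 l hg
  have hR := RR_pos hp hp1 l hg
  have hT := sinh_FB_pos hp hp1 l hg
  have hS : 0 < Real.sinh g := Real.sinh_pos_iff.2 hg
  have hi := B_i hp hp1 l hg
  have h1 : FBl p l g * FBg p l g = - (((Real.cosh (FB p l g) - Real.cosh g)
      * (Real.cosh (FB p l g) - Real.cosh g + rh l)
      / Real.sinh (FB p l g) ^ 2) * (rh l * Real.sinh g / RR p l g ^ 2)) := by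
    unfold FBl FBg; field_simp
  have h2 : (Real.cosh (FB p l g) - Real.cosh g)
      * (Real.cosh (FB p l g) - Real.cosh g + rh l) / Real.sinh (FB p l g) ^ 2 ≤ 1 := by
    rw [div_le_one (by positivity)]
    refine hi.trans ?_
    nlinarith [sq_nonneg (Real.sinh (FB p l g))]
  have h3 : 0 ≤ (Real.cosh (FB p l g) - Real.cosh g)
      * (Real.cosh (FB p l g) - Real.cosh g + rh l) / Real.sinh (FB p l g) ^ 2 := by
    positivity
  have h4 : 0 ≤ rh l * Real.sinh g / RR p l g ^ 2 := by positivity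
  rw [h1, abs_neg, abs_mul, abs_of_nonneg h3, abs_of_nonneg h4]
  nlinarith

/-- main bound for `F_B`, `rho ≤ cosh g` -/
theorem bd_B {p : ℝ} (hp : 0 < p) (hp1 : p < 1) (l : ℝ) {g : ℝ} (hg : 0 < g)
    (hrC : rh l ≤ Real.cosh g) :
    |FBll p l g * FBg p l g|
      ≤ rh l * Real.sinh g / RR p l g ^ 2 * (2 + 4 * rh l / RR p l g) := by
  have hr := rh_pos l
  have hR := RR_pos hp hp1 l hg
  have h1 := abs_FBll_le hp hp1 l hg hrC
  have h2 := abs_FBlg_le hp hp1 l hg
  have h3 : 0 < 2 + 4 * rh l / RR p l g := by positivity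
  calc |FBll p l g * FBg p l g| = |FBll p l g| * |FBg p l g| := abs_mul _ _
    _ ≤ |FBl p l g| * (2 + 4 * rh l / RR p l g) * |FBg p l g| :=
        mul_le_mul_of_nonneg_right h1 (abs_nonneg _)
    _ = |FBl p l g * FBg p l g| * (2 + 4 * rh l / RR p l g) := by
        rw [abs_mul]; ring
    _ ≤ _ := mul_le_mul_of_nonneg_right h2 h3.le

/-! ### the final form `K rho g / (|rho - p| + g)^3` -/

lemma cosh_one_le : Real.cosh 1 ≤ 2 := by
  rw [Real.cosh_eq]
  have h1 := Real.exp_one_lt_d9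
  have h2 : Real.exp (-1) ≤ 1 := Real.exp_le_one_iff.2 (by norm_num)
  linarith

lemma sinh_le_two_mul {g : ℝ} (hg : 0 < g) (hg1 : g ≤ 1) : Real.sinh g ≤ 2 * g := by
  have h1 : |Real.exp g - 1 - g| ≤ g ^ 2 :=
    Real.abs_exp_sub_one_sub_id_le (by rw [abs_of_pos hg]; exact hg1)
  have h2 : -g + 1 ≤ Real.exp (-g) := Real.add_one_le_exp (-g)
  have h3 := (abs_le.1 h1).2
  rw [Real.sinh_eq]
  nlinarith

/-- abstract last step -/
lemma last_step {p : ℝ} (hp : 0 < p) (hp1 : p < 1) {l g V : ℝ} (hg : 0 < g)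
    (hg1 : g ≤ 1) (hrC : rh l ≤ Real.cosh g)
    (hV : V ≤ 4 * (rh l * Real.sinh g / RR p l g ^ 2 * (2 + 4 * rh l / RR p l g))) :
    V ≤ (2 ^ 14 / (p * (1 - p)) ^ 3) * (rh l * g / (|rh l - p| + g) ^ 3) := by
  have hr := rh_pos l
  have hR := RR_pos hp hp1 l hg
  have hS : 0 < Real.sinh g := Real.sinh_pos_iff.2 hg
  have hq : 0 < 1 - p := by linarith
  have hpq : 0 < p * (1 - p) := by positivity
  have hd := dist_le_RR hp hp1 l hg
  have hS2 := sinh_le_two_mul hg hg1
  have hC2 : Real.cosh g ≤ 2 := by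
    have h2 : Real.cosh g ≤ Real.cosh 1 := by
      rw [Real.cosh_le_cosh, abs_of_pos hg]; simpa using hg1
    exact h2.trans cosh_one_le
  have hr2 : rh l ≤ 2 := hrC.trans hC2
  have hC1 := Real.one_le_cosh g
  -- `R ≤ 4`
  have hR4 : RR p l g ≤ 4 := by
    have h1 : RR p l g ^ 2 ≤ 4 ^ 2 := by
      rw [RR_sq' hp hp1]
      have : 0 ≤ 2 * p * rh l * Real.cosh g := by positivity
      nlinarith
    exact le_of_sq_le_sq h1 (by norm_num)
  have h1 : 2 + 4 * rh l / RR p l g ≤ 16 / RR p l g := by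
    rw [← sub_nonneg]
    have : 16 / RR p l g - (2 + 4 * rh l / RR p l g)
        = (16 - 2 * RR p l g - 4 * rh l) / RR p l g := by field_simp; ring
    rw [this]
    apply div_nonneg _ hR.le
    linarith
  have h2 : rh l * Real.sinh g / RR p l g ^ 2 ≤ 2 * (rh l * g) / RR p l g ^ 2 := by
    apply div_le_div_of_nonneg_right _ (by positivity)
    nlinarith
  have h3 : V ≤ 128 * (rh l * g) / RR p l g ^ 3 := by
    refine hV.trans ?_
    calc 4 * (rh l * Real.sinh g / RR p l g ^ 2 * (2 + 4 * rh l / RR p l g))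
        ≤ 4 * (2 * (rh l * g) / RR p l g ^ 2 * (16 / RR p l g)) := by
          apply mul_le_mul_of_nonneg_left _ (by norm_num)
          apply mul_le_mul h2 h1 (by positivity) (by positivity)
      _ = 128 * (rh l * g) / RR p l g ^ 3 := by field_simp; norm_num
  refine h3.trans ?_
  have hdpos : 0 < |rh l - p| + g := by positivity
  have h4 : (|rh l - p| + g) ^ 3 ≤ (4 / (p * (1 - p)) * RR p l g) ^ 3 :=
    pow_le_pow_left₀ hdpos.le hd 3
  have h5 : 128 * (rh l * g) / RR p l g ^ 3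
      = (2 ^ 13 / (p * (1 - p)) ^ 3) * (rh l * g / (4 / (p * (1 - p)) * RR p l g) ^ 3) := by
    field_simp; norm_num
  rw [h5]
  have h6 : rh l * g / (4 / (p * (1 - p)) * RR p l g) ^ 3
      ≤ rh l * g / (|rh l - p| + g) ^ 3 :=
    div_le_div_of_nonneg_left (by positivity) (by positivity) h4
  have h7 : (2 : ℝ) ^ 13 / (p * (1 - p)) ^ 3 ≤ 2 ^ 14 / (p * (1 - p)) ^ 3 := by
    apply div_le_div_of_nonneg_right _ (by positivity)
    norm_num
  exact mul_le_mul h7 h6 (by positivity) (by positivity)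

/-- final bound for `F_A` -/
theorem final_A {p : ℝ} (hp : 0 < p) (hp1 : p < 1) {l g : ℝ} (hg : 0 < g) (hg1 : g ≤ 1)
    (hrC : rh l ≤ Real.cosh g) :
    |FAll p l g * FAg p l g|
      ≤ (2 ^ 14 / (p * (1 - p)) ^ 3) * (rh l * g / (|rh l - p| + g) ^ 3) := by
  apply last_step hp hp1 hg hg1 hrC
  refine (bd_A hp hp1 l hg).trans ?_
  have hr := rh_pos l
  have hR := RR_pos hp hp1 l hg
  have hS : 0 < Real.sinh g := Real.sinh_pos_iff.2 hg
  have hC2 : Real.cosh g ≤ 2 := by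
    have h2 : Real.cosh g ≤ Real.cosh 1 := by
      rw [Real.cosh_le_cosh, abs_of_pos hg]; simpa using hg1
    exact h2.trans cosh_one_le
  have h1 : |Real.cosh g - rh l| ≤ 2 := by
    rw [abs_of_nonneg (by linarith)]; linarith
  have h3 : 0 < 2 + 4 * rh l / RR p l g := by positivity
  have h2 : 2 * rh l * Real.sinh g * |Real.cosh g - rh l| / RR p l g ^ 2
      ≤ 4 * (rh l * Real.sinh g / RR p l g ^ 2) := by
    rw [← mul_div_assoc]
    apply div_le_div_of_nonneg_right _ (by positivity)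
    have : 0 < rh l * Real.sinh g := by positivity
    nlinarith
  calc _ ≤ 4 * (rh l * Real.sinh g / RR p l g ^ 2) * (2 + 4 * rh l / RR p l g) :=
        mul_le_mul_of_nonneg_right h2 h3.le
    _ = _ := by ring

/-- final bound for `F_B` -/
theorem final_B {p : ℝ} (hp : 0 < p) (hp1 : p < 1) {l g : ℝ} (hg : 0 < g) (hg1 : g ≤ 1)
    (hrC : rh l ≤ Real.cosh g) :
    |FBll p l g * FBg p l g|
      ≤ (2 ^ 14 / (p * (1 - p)) ^ 3) * (rh l * g / (|rh l - p| + g) ^ 3) := by
  apply last_step hp hp1 hg hg1 hrC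
  refine (bd_B hp hp1 l hg hrC).trans ?_
  have hr := rh_pos l
  have hR := RR_pos hp hp1 l hg
  have hS : 0 < Real.sinh g := Real.sinh_pos_iff.2 hg
  have h3 : 0 < 2 + 4 * rh l / RR p l g := by positivity
  have : 0 < rh l * Real.sinh g / RR p l g ^ 2 * (2 + 4 * rh l / RR p l g) := by positivity
  linarith

end Pool.Agent.H61.EH
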